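import Pool.Agent.Helper42.PW.Goals1

/-!
# Project W (MP_fc6b1e_nt), packet N_EVL: the norm form is the product over the conjugates
-/

set_option autoImplicit false

namespace Pool.Agent.Helper94.PW

open Pool.Agent.Helper42.PW

theorem sum_col {Ω : Type} [Field Ω] {p c : ℕ} (hc : c ≤ p) (b : Ω) (z : ℕ → Ω) :
    ∑ r ∈ Finset.range p, b ^ r * (if c ≤ r then z (r - c) else b ^ p * z (p + r - c)) =
      (∑ j ∈ Finset.range p, z j * b ^ j) * b ^ c := by
  obtain ⟨d, rfl⟩ := Nat.exists_eq_add_of_le hc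
  rw [Finset.sum_range_add]
  have e1 : ∑ j ∈ Finset.range (c + d), z j * b ^ j =
      ∑ j ∈ Finset.range d, z j * b ^ j + ∑ j ∈ Finset.range c, z (d + j) * b ^ (d + j) := by
    rw [add_comm c d, Finset.sum_range_add]
  rw [e1, add_mul, add_comm, Finset.sum_mul, Finset.sum_mul]
  congr 1
  · refine Finset.sum_congr rfl fun x _ => ?_
    rw [if_pos (Nat.le_add_right c x), Nat.add_sub_cancel_left, pow_add]
    ring
  · refine Finset.sum_congr rfl fun x hx => ?_
    have hx' := Finset.mem_range.1 hx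
    rw [if_neg (by omega)]
    have e2 : c + d + x - c = d + x := by omega
    rw [e2, pow_add b c d, pow_add b d x]
    ring

theorem n_evl : N_EVL := by
  intro p hp Ω _ ε β hε hβ z
  have hp' := hp.out
  let v : Fin p → Ω := fun i => ε ^ (i : ℕ) * β
  have hv : Function.Injective v := by
    intro i j h
    have h1 : ε ^ (i : ℕ) = ε ^ (j : ℕ) := mul_right_cancel₀ hβ h
    exact Fin.ext (hε.pow_inj i.2 j.2 h1)
  have hdet := (Matrix.det_vandermonde_ne_zero_iff (v := v)).2 hv
  let A : Matrix (Fin p) (Fin p) Ω := Matrix.of fun i j : Fin p =>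
    if (j : ℕ) ≤ i then z (i - j) else β ^ p * z (p + i - j)
  have hpow : ∀ i : Fin p, (v i) ^ p = β ^ p := by
    intro i
    show (ε ^ (i : ℕ) * β) ^ p = β ^ p
    rw [mul_pow, ← pow_mul, mul_comm (i : ℕ) p, pow_mul, hε.pow_eq_one, one_pow, one_mul]
  have hVA : Matrix.vandermonde v * A =
      Matrix.diagonal (fun i : Fin p => ∑ j ∈ Finset.range p, z j * (v i) ^ j) *
        Matrix.vandermonde v := by
    ext i c
    rw [Matrix.mul_apply, Matrix.diagonal_mul, Matrix.vandermonde_apply,
      ← sum_col c.2.le (v i) z, hpow i,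
      ← Fin.sum_univ_eq_sum_range (fun r => v i ^ r *
        (if (c : ℕ) ≤ r then z (r - c) else β ^ p * z (p + r - c))) p]
    rfl
  have h1 := congrArg Matrix.det hVA
  rw [Matrix.det_mul, Matrix.det_mul, Matrix.det_diagonal, mul_comm] at h1
  have h2 := mul_right_cancel₀ hdet h1
  rw [← Fin.prod_univ_eq_prod_range (fun i => ∑ j ∈ Finset.range p, z j * (ε ^ i * β) ^ j) p]
  exact h2

end Pool.Agent.Helper94.PW
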